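import Mathlib
import Pool.Prelude.Def_F_458e953d

/-!
# Definitions: simultaneous geometric embedding of two graphs, existential theory of the reals
-/

set_option autoImplicit false

namespace Pool.Agent.helper56.SGE

open N68a2faeb N793a5b8e

/-- The plane. -/
abbrev Pt := ℝ × ℝ

/-- A straight-line drawing of the graph `G`: the vertices are at distinct points, and no edge
(drawn as the closed segment between its endpoints) passes through a vertex other than its
endpoints. -/
structure IsDrawing {V : Type*} (G : SimpleGraph V) (p : V → Pt) : Prop where
  inj : Function.Injective p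
  clear : ∀ ⦃u v w : V⦄, G.Adj u v → w ≠ u → w ≠ v → p w ∉ segment ℝ (p u) (p v)

/-- The segments `uv` and `u'v'` share a point that is not a common endpoint. -/
def Cross {V : Type*} (p : V → Pt) (u v u' v' : V) : Prop :=
  ∃ z, z ∈ segment ℝ (p u) (p v) ∧ z ∈ segment ℝ (p u') (p v') ∧
    ¬ ∃ w, (w = u ∨ w = v) ∧ (w = u' ∨ w = v') ∧ z = p w

/-- A simultaneous geometric embedding of the graphs `G i` on a common vertex set: a
straight-line drawing of their union in which no two distinct edges of the same `G i` cross. -/
structure IsSGE {V ι : Type*} (G : ι → SimpleGraph V) (p : V → Pt) : Prop where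
  drawing : IsDrawing (⨆ i, G i) p
  noCross : ∀ (i : ι) ⦃u v u' v' : V⦄, (G i).Adj u v → (G i).Adj u' v' → s(u, v) ≠ s(u', v') →
    ¬ Cross p u v u' v'

/-- An instance: a square table; its entry `(i, j)` holds two bits, the first for the first
graph and the second for the second graph. -/
abbrev Inst := List (List (Bool × Bool))

/-- the entry `(i, j)` -/
def entry (M : Inst) (i j : ℕ) : Bool × Bool := (M.getD i []).getD j (false, false)

/-- the bit for the graph number `k` -/
def bit (k : Fin 2) (e : Bool × Bool) : Bool := if k = 0 then e.1 else e.2

/-- The graphs of an instance: the vertices are `0, ..., n - 1`, where `n` is the number of rows;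
`i` and `j` are adjacent in graph `k` if `i ≠ j` and the bit `k` is set at `(i, j)` or at
`(j, i)`. -/
def graphOf (M : Inst) (k : Fin 2) : SimpleGraph (Fin M.length) where
  Adj i j := i ≠ j ∧ (bit k (entry M i j) = true ∨ bit k (entry M j i) = true)
  symm := ⟨fun _ _ h => ⟨h.1.symm, h.2.symm⟩⟩
  loopless := ⟨fun _ h => h.1 rfl⟩

/-- The square tables. -/
def Square (M : Inst) : Prop := ∀ r ∈ M, r.length = M.length

open Classical in
/-- **SGE₂**: the words that code a square table whose two graphs have a simultaneous geometric
embedding. -/
noncomputable def SGE2 : DecisionProblem := fun w =>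
  decide (∃ M : Inst, N487b59b3.bitDecode w = some M ∧ Square M ∧ ∃ p, IsSGE (graphOf M) p)

/-! ### The existential theory of the reals -/

/-- Polynomial expressions in the variables `x 0, x 1, ...` with integer constants. -/
inductive Tm : Type
  | var (i : ℕ)
  | num (n : ℕ)
  | add (a b : Tm)
  | sub (a b : Tm)
  | mul (a b : Tm)

/-- the value -/
noncomputable def Tm.val (x : ℕ → ℝ) : Tm → ℝ
  | .var i => x i
  | .num n => (n : ℝ)
  | .add a b => a.val x + b.val x
  | .sub a b => a.val x - b.val x
  | .mul a b => a.val x * b.val x

/-- Quantifier-free formulas. -/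
inductive Fml : Type
  | lt (a b : Tm)
  | eq (a b : Tm)
  | not (a : Fml)
  | and (a b : Fml)
  | or (a b : Fml)

/-- truth -/
def Fml.holds (x : ℕ → ℝ) : Fml → Prop
  | .lt a b => a.val x < b.val x
  | .eq a b => a.val x = b.val x
  | .not a => ¬ a.holds x
  | .and a b => a.holds x ∧ b.holds x
  | .or a b => a.holds x ∨ b.holds x

/-- Letters are coded by blocks of four bits. -/
def letter (k : ℕ) : List Bool := [k.testBit 0, k.testBit 1, k.testBit 2, k.testBit 3]

/-- A number in binary (least significant digit first): the letters `1` and `2` are the digits 0
and 1, the letter `0` ends the number. -/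
def numCode (n : ℕ) : List Bool :=
  n.bits.flatMap (fun b => letter (if b then 2 else 1)) ++ letter 0

/-- The code of an expression (Polish form). -/
def Tm.code : Tm → List Bool
  | .var i => letter 3 ++ numCode i
  | .num n => letter 4 ++ numCode n
  | .add a b => letter 5 ++ (a.code ++ b.code)
  | .sub a b => letter 6 ++ (a.code ++ b.code)
  | .mul a b => letter 7 ++ (a.code ++ b.code)

/-- The code of a formula (Polish form). -/
def Fml.code : Fml → List Bool
  | .lt a b => letter 8 ++ (a.code ++ b.code)
  | .eq a b => letter 9 ++ (a.code ++ b.code)
  | .not a => letter 10 ++ a.code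
  | .and a b => letter 11 ++ (a.code ++ b.code)
  | .or a b => letter 12 ++ (a.code ++ b.code)

open Classical in
/-- **The existential theory of the reals**: the words that code a formula which holds at some
real values of its variables. -/
noncomputable def ETR : DecisionProblem := fun w =>
  decide (∃ φ : Fml, φ.code = w ∧ ∃ x : ℕ → ℝ, φ.holds x)

/-- The class `∃ℝ`: the decision problems that reduce in polynomial time to the existential
theory of the reals. -/
def ER : DecisionComplexityClass := {L | ManyOneReducible L ETR}

end Pool.Agent.helper56.SGE
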