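import Mathlib
import Pool.Agent.helper56.SGE.Defs

/-!
# Triangulated spheres, orientations, homogeneous coordinates: definitions
-/

set_option autoImplicit false

namespace Pool.Agent.helper56.SGE

/-- twice the signed area of a triangle -/
def orient (a b c : Pt) : ℝ := (b.1 - a.1) * (c.2 - a.2) - (b.2 - a.2) * (c.1 - a.1)

/-- An oriented triangle. -/
abbrev Face (α : Type*) := α × α × α

namespace Face

variable {α : Type*} [DecidableEq α]

/-- the corners -/
def verts (f : Face α) : Finset α := {f.1, f.2.1, f.2.2}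

/-- the directed edges -/
def dE (f : Face α) : List (α × α) := [(f.1, f.2.1), (f.2.1, f.2.2), (f.2.2, f.1)]

end Face

/-- two vertices are adjacent if they are corners of a common face -/
def trAdj {α : Type*} [DecidableEq α] (o : Face α) (F : List (Face α)) (u v : α) : Prop :=
  u ≠ v ∧ ∃ f ∈ o :: F, u ∈ f.verts ∧ v ∈ f.verts

/-- `F` are the inner faces of a triangulation of the triangle `o` with vertex set `S` (all faces
oriented in the same way). -/
structure Sphere {α : Type*} [DecidableEq α] (S : Finset α) (o : Face α) (F : List (Face α)) :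
    Prop where
  sub : ∀ f ∈ o :: F, f.verts ⊆ S
  ne : ∀ f ∈ o :: F, f.1 ≠ f.2.1 ∧ f.2.1 ≠ f.2.2 ∧ f.2.2 ≠ f.1
  cover : ∀ v ∈ S, ∃ f ∈ F, v ∈ f.verts
  cancel : ∀ w : α → α → ℝ, (∀ a b, w a b = - w b a) →
    (F.map (fun f => w f.1 f.2.1 + w f.2.1 f.2.2 + w f.2.2 f.1)).sum =
      w o.1 o.2.1 + w o.2.1 o.2.2 + w o.2.2 o.1
  rev : ∀ f ∈ F, ∀ e ∈ f.dE, (∃ g ∈ F, e.swap ∈ g.dE) ∨ e ∈ o.dE
  rev_o : ∀ e ∈ o.dE, ∃ g ∈ F, e ∈ g.dE
  distinct : (o :: F).Pairwise (fun f g => f.verts ≠ g.verts)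
  nonsep : ∀ f ∈ o :: F, ∀ u ∈ S, ∀ v ∈ S, u ∉ f.verts → v ∉ f.verts →
    Relation.ReflTransGen (fun a b => a ∉ f.verts ∧ b ∉ f.verts ∧ trAdj o F a b) u v
  conn : ∀ f ∈ F, ∀ g ∈ F,
    Relation.ReflTransGen (fun f g : Face α => f ∈ F ∧ g ∈ F ∧ ∃ e ∈ f.dE, e.swap ∈ g.dE) f g
  inner : ∃ v ∈ S, v ∉ o.verts

/-- A simultaneous geometric embedding of relations `E i` on the vertex set `S`. -/
structure IsSGEOn {α ι : Type*} (S : Finset α) (E : ι → α → α → Prop) (p : α → Pt) : Prop where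
  inj : Set.InjOn p S
  clear : ∀ i, ∀ u ∈ S, ∀ v ∈ S, ∀ w ∈ S, E i u v → w ≠ u → w ≠ v → p w ∉ segment ℝ (p u) (p v)
  noCross : ∀ i, ∀ u ∈ S, ∀ v ∈ S, ∀ u' ∈ S, ∀ v' ∈ S, E i u v → E i u' v' →
    s(u, v) ≠ s(u', v') → ¬ Cross p u v u' v'

/-- the two graphs of two triangulations -/
def trE {α : Type*} [DecidableEq α] (o : Face α) (F1 F2 : List (Face α)) (k : Fin 2) :
    α → α → Prop := trAdj o (if k = 0 then F1 else F2)

/-- determinant of three vectors -/
def det3 (a b c : ℝ × ℝ × ℝ) : ℝ :=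
  a.1 * (b.2.1 * c.2.2 - b.2.2 * c.2.1) - a.2.1 * (b.1 * c.2.2 - b.2.2 * c.1) +
    a.2.2 * (b.1 * c.2.1 - b.2.1 * c.1)

/-- Homogeneous coordinates in which the corners of `o` are the coordinate directions. -/
def hom {α : Type*} [DecidableEq α] (o : Face α) (x y : α → ℝ) (v : α) : ℝ × ℝ × ℝ :=
  if v = o.1 then (1, 0, 0) else if v = o.2.1 then (0, 1, 0) else if v = o.2.2 then (0, 0, 1)
  else (1, x v, y v)

/-- All faces can be made positive. -/
def Real2 {α : Type*} [DecidableEq α] (S : Finset α) (o : Face α) (F1 F2 : List (Face α)) :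
    Prop :=
  ∃ x y : α → ℝ, (∀ v ∈ S, v ∉ o.verts → 0 < x v ∧ 0 < y v) ∧
    (∀ f ∈ F1 ++ F2, 0 < det3 (hom o x y f.1) (hom o x y f.2.1) (hom o x y f.2.2)) ∧
    Set.InjOn (fun v => (x v, y v)) {v | v ∈ S ∧ v ∉ o.verts}

/-! ### Triangulated polygons -/

/-- The polygon with vertices `a, l, b` (in this order) is triangulated by the triangles
`L m, m, R m`, `m ∈ l`. -/
inductive TriL {α : Type*} (L R : α → α) : α → List α → α → Prop
  | nil (a b : α) : TriL L R a [] b
  | node (a b m : α) (l r : List α) : L m = a → R m = b → TriL L R a l m → TriL L R m r b →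
      TriL L R a (l ++ m :: r) b

/-- consecutive pairs -/
def pairs {α : Type*} (l : List α) : List (α × α) := l.zip l.tail

end Pool.Agent.helper56.SGE
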