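import Mathlib

/-!
# Arithmetic part of the chain: quadratic systems, positive programs, ladders

`QSys` (system of equations `y₁ y₂ + y₃ = y₄`), `Pap` (positive arithmetic program with one strict
comparison), `Slp` (the programs drawn by the geometric construction), and the explicit
translations `QSys.toPap`, `Pap.toSlp`.
-/

set_option autoImplicit false

namespace Pool.Agent.helper56.SGE

/-! ### Quadratic systems -/

/-- `nv` real variables, `m` equations `y₀ * y₁ + y₂ - y₃ = 0`; the `c`-th term `y_c` of the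
equation `k` is given by the reference `ref k c`: `0` is the number 0, `1` is the number 1 and
`v + 2` is the variable `v`. -/
structure QSys where
  nv : ℕ
  m : ℕ
  ref : ℕ → ℕ → ℕ

namespace QSys

/-- value of a reference -/
noncomputable def rval (z : ℕ → ℝ) : ℕ → ℝ
  | 0 => 0
  | 1 => 1
  | v + 2 => z v

/-- left side of the equation `k` -/
noncomputable def E (Q : QSys) (z : ℕ → ℝ) (k : ℕ) : ℝ :=
  rval z (Q.ref k 0) * rval z (Q.ref k 1) + rval z (Q.ref k 2) - rval z (Q.ref k 3)

def WF (Q : QSys) : Prop := ∀ k < Q.m, ∀ c < 4, Q.ref k c < Q.nv + 2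

def Sat (Q : QSys) : Prop := ∃ z : ℕ → ℝ, ∀ k < Q.m, Q.E z k = 0

/-- exponent of the radius -/
def tau (Q : QSys) : ℕ := 20 * (Q.nv + Q.m + 2)

/-- exponent of the precision -/
def kap (Q : QSys) : ℕ := 60 * (Q.nv + Q.m + 2)

/-- the strict form of a quadratic system -/
def Sat' (Q : QSys) : Prop :=
  ∃ X : ℕ → ℝ, (∀ i < 2 * Q.nv, 1 < X i) ∧
    (2 : ℝ) ^ (2 ^ Q.kap) * (∑ k ∈ Finset.range Q.m, Q.E (fun v => X (2 * v) - X (2 * v + 1)) k ^ 2)
      + (1 + ∑ i ∈ Finset.range (2 * Q.nv), X i) < (2 : ℝ) ^ (2 ^ Q.tau)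

end QSys

/-! ### Positive arithmetic programs -/

inductive Op : Type
  | one
  | var
  | add
  | mul
  deriving DecidableEq

/-- A program with instructions `0, ..., K - 1` and one comparison. -/
structure Pap where
  K : ℕ
  op : ℕ → Op
  a : ℕ → ℕ
  b : ℕ → ℕ
  l : ℕ
  r : ℕ

namespace Pap

def WF (P : Pap) : Prop :=
  (∀ k < P.K, P.op k = .add ∨ P.op k = .mul → P.a k < k ∧ P.b k < k) ∧ P.l < P.K ∧ P.r < P.K

def IsVal (P : Pap) (x : ℕ → ℝ) : Prop :=
  ∀ k < P.K, match P.op k with
    | .one => x k = 1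
    | .var => 1 < x k
    | .add => x k = x (P.a k) + x (P.b k)
    | .mul => x k = x (P.a k) * x (P.b k)

def Sat (P : Pap) : Prop := ∃ x : ℕ → ℝ, P.IsVal x ∧ x P.l < x P.r

end Pap

/-! ### Ladder programs -/

inductive Ty : Type
  | g
  | s
  | f
  deriving DecidableEq

/-- A ladder program: blocks `1, ..., N` (block `0` is the constant). Block `j` reads the port
`(A j, kA j)` and the port `(B j, kB j)`; kind `false` is the low port and `true` the high
port of a block. -/
structure Slp where
  N : ℕ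
  ty : ℕ → Ty
  A : ℕ → ℕ
  B : ℕ → ℕ
  kA : ℕ → Bool
  kB : ℕ → Bool

namespace Slp

/-- the port `(i, k)` exists: block 0 and type g have a low port, type f has a high port, and
type s has both. -/
def OkPort (S : Slp) (i : ℕ) (k : Bool) : Prop :=
  (i = 0 ∧ k = false) ∨ (i ≠ 0 ∧ ((S.ty i = .g ∧ k = false) ∨ (S.ty i = .f ∧ k = true) ∨
    S.ty i = .s))

structure WF (S : Slp) : Prop where
  one_le : 1 ≤ S.N
  last : S.ty S.N = .g
  A_lt : ∀ j, 1 ≤ j → j ≤ S.N → S.A j < j
  B_lt : ∀ j, 1 ≤ j → j ≤ S.N → S.B j < j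
  okA : ∀ j, 1 ≤ j → j ≤ S.N → S.OkPort (S.A j) (S.kA j)
  okB : ∀ j, 1 ≤ j → j ≤ S.N → S.OkPort (S.B j) (S.kB j)

/-- `P i k` are values of the ports -/
def IsVal (S : Slp) (P : ℕ → Bool → ℝ) : Prop :=
  P 0 false = 1 ∧ ∀ j, 1 ≤ j → j ≤ S.N → match S.ty j with
    | .g => P j false = P (S.A j) (S.kA j) * P (S.B j) (S.kB j) / (1 + P (S.B j) (S.kB j))
    | .s => 0 < P j true ∧ P j false = P (S.A j) (S.kA j) / (1 + P j true)
    | .f => P j true = P (S.A j) (S.kA j) * (1 + P (S.B j) (S.kB j))

def Sat (S : Slp) : Prop := ∃ P : ℕ → Bool → ℝ, S.IsVal P ∧ P S.N false < 1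

end Slp

/-! ### From quadratic systems to programs -/

/-- instruction holding the positive part of a reference -/
def posRef (r : ℕ) : ℕ := if r = 0 then 0 else if r = 1 then 1 else 2 * r - 2

/-- instruction holding the negative part of a reference -/
def negRef (r : ℕ) : ℕ := if r = 0 then 0 else if r = 1 then 0 else 2 * r - 1

namespace QSys

variable (Q : QSys)

/-- first instruction of the equations -/
def b1 : ℕ := 2 + 2 * Q.nv
/-- first instruction of the sum of the variables -/
def b2 : ℕ := Q.b1 + 17 * Q.m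
/-- first instruction of the radius -/
def b3 : ℕ := Q.b2 + 2 * Q.nv
/-- first instruction of the precision -/
def b4 : ℕ := Q.b3 + Q.tau
/-- first instruction of the final part -/
def b5 : ℕ := Q.b4 + Q.kap

/-- index of the accumulator `A` before equation `k` -/
def accA (k : ℕ) : ℕ := if k = 0 then 0 else Q.b1 + 17 * k - 3
/-- index of the accumulator `B` before equation `k` -/
def accB (k : ℕ) : ℕ := if k = 0 then 0 else Q.b1 + 17 * k - 1

/-- instructions of the equation `k`: operation (`true` is multiplication), arguments -/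
def eqOp (c : ℕ) : Bool := c = 0 ∨ c = 1 ∨ c = 5 ∨ c = 6 ∨ c = 10 ∨ c = 11 ∨ c = 12

/-- first argument of the instruction `c < 17` of the equation `k` -/
def eqA (k c : ℕ) : ℕ :=
  let b := Q.b1 + 17 * k
  match c with
  | 0 => posRef (Q.ref k 0)
  | 1 => negRef (Q.ref k 0)
  | 2 => b
  | 3 => b + 2
  | 4 => b + 3
  | 5 => posRef (Q.ref k 0)
  | 6 => negRef (Q.ref k 0)
  | 7 => b + 5
  | 8 => b + 7
  | 9 => b + 8
  | 10 => b + 4
  | 11 => b + 9
  | 12 => b + 4
  | 13 => b + 10
  | 14 => Q.accA k
  | 15 => Q.accB k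
  | _ => b + 15

/-- second argument of the instruction `c < 17` of the equation `k` -/
def eqB (k c : ℕ) : ℕ :=
  let b := Q.b1 + 17 * k
  match c with
  | 0 => posRef (Q.ref k 1)
  | 1 => negRef (Q.ref k 1)
  | 2 => b + 1
  | 3 => posRef (Q.ref k 2)
  | 4 => negRef (Q.ref k 3)
  | 5 => negRef (Q.ref k 1)
  | 6 => posRef (Q.ref k 1)
  | 7 => b + 6
  | 8 => negRef (Q.ref k 2)
  | 9 => posRef (Q.ref k 3)
  | 10 => b + 4
  | 11 => b + 9
  | 12 => b + 9
  | 13 => b + 11
  | 14 => b + 13
  | 15 => b + 12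
  | _ => b + 12

/-- The program of a quadratic system. Instructions: `0` is one, `1` is two, `2 + i` is the
variable `X i` (`i < 2 nv`), 17 instructions for each equation, the sum of the variables, the
radius and the precision by repeated squaring, and four final instructions. -/
def toPap : Pap where
  K := Q.b5 + 4
  op n :=
    if n = 0 then .one else
    if n = 1 then .add else
    if n < Q.b1 then .var else
    if n < Q.b2 then (if eqOp ((n - Q.b1) % 17) then .mul else .add) else
    if n < Q.b3 then .add else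
    if n < Q.b5 then .mul else
    if n = Q.b5 then .mul else
    if n = Q.b5 + 1 then .add else
    if n = Q.b5 + 2 then .mul else .add
  a n :=
    if n < Q.b1 then 0 else
    if n < Q.b2 then Q.eqA ((n - Q.b1) / 17) ((n - Q.b1) % 17) else
    if n < Q.b3 then (if n = Q.b2 then 0 else n - 1) else
    if n < Q.b4 then (if n = Q.b3 then 1 else n - 1) else
    if n < Q.b5 then (if n = Q.b4 then 1 else n - 1) else
    if n = Q.b5 then Q.b5 - 1 else
    if n = Q.b5 + 1 then Q.b5 else
    if n = Q.b5 + 2 then Q.b5 - 1 else Q.b5 + 2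
  b n :=
    if n < Q.b1 then 0 else
    if n < Q.b2 then Q.eqB ((n - Q.b1) / 17) ((n - Q.b1) % 17) else
    if n < Q.b3 then 2 + (n - Q.b2) else
    if n < Q.b4 then (if n = Q.b3 then 1 else n - 1) else
    if n < Q.b5 then (if n = Q.b4 then 1 else n - 1) else
    if n = Q.b5 then Q.accA Q.m else
    if n = Q.b5 + 1 then (if Q.nv = 0 then 0 else Q.b3 - 1) else
    if n = Q.b5 + 2 then Q.accB Q.m else Q.b4 - 1
  l := Q.b5 + 1
  r := Q.b5 + 3

end QSys

/-! ### From programs to ladder programs -/

namespace Pap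

variable (P : Pap)

/-- block of the port that holds `x k` -/
def wpB (k : ℕ) : ℕ :=
  match P.op k with
  | .one => 0
  | .var => 6 * k + 2
  | .add => 6 * k + 5
  | .mul => 6 * k + 2

/-- kind of the port that holds `x k` -/
def wpK (k : ℕ) : Bool :=
  match P.op k with
  | .one => false
  | .var => true
  | .add => true
  | .mul => false

/-- block of the (low) port that holds `1 / x k` -/
def wbB (k : ℕ) : ℕ :=
  match P.op k with
  | .one => 0
  | .var => 6 * k + 1
  | .add => 6 * k + 6
  | .mul => 6 * k + 4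

/-- the data `(type, A, kA, B, kB)` of the block `6 k + 1 + c`, `c < 6` -/
def blkD (k c : ℕ) : Ty × ℕ × Bool × ℕ × Bool :=
  match P.op k with
  | .one => (.g, 0, false, 0, false)
  | .var =>
    if c = 0 then (.s, 0, false, 0, false)
    else if c = 1 then (.f, 0, false, 6 * k + 1, true)
    else (.g, 0, false, 0, false)
  | .mul =>
    if c = 0 then (.f, P.wpB (P.a k), P.wpK (P.a k), P.wpB (P.b k), P.wpK (P.b k))
    else if c = 1 then (.g, 6 * k + 1, true, P.wpB (P.b k), P.wpK (P.b k))
    else if c = 2 then (.f, P.wbB (P.a k), false, P.wbB (P.b k), false)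
    else if c = 3 then (.g, 6 * k + 3, true, P.wbB (P.b k), false)
    else (.g, 0, false, 0, false)
  | .add =>
    if c = 0 then (.f, P.wpB (P.b k), P.wpK (P.b k), P.wbB (P.a k), false)
    else if c = 1 then (.g, 6 * k + 1, true, P.wbB (P.a k), false)
    else if c = 2 then (.f, P.wbB (P.b k), false, P.wpB (P.a k), P.wpK (P.a k))
    else if c = 3 then (.g, 6 * k + 3, true, P.wpB (P.a k), P.wpK (P.a k))
    else if c = 4 then (.f, P.wpB (P.a k), P.wpK (P.a k), 6 * k + 2, false)
    else (.g, P.wbB (P.a k), false, 6 * k + 4, false)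

/-- the data of the block `j ≥ 1` -/
def dat (j : ℕ) : Ty × ℕ × Bool × ℕ × Bool :=
  if j = 6 * P.K + 1 then (.f, P.wpB P.l, P.wpK P.l, P.wbB P.r, false)
  else if j = 6 * P.K + 2 then (.g, 6 * P.K + 1, true, P.wbB P.r, false)
  else P.blkD ((j - 1) / 6) ((j - 1) % 6)

/-- The ladder program of a program. -/
def toSlp : Slp where
  N := 6 * P.K + 2
  ty j := (P.dat j).1
  A j := (P.dat j).2.1
  kA j := (P.dat j).2.2.1
  B j := (P.dat j).2.2.2.1
  kB j := (P.dat j).2.2.2.2

end Pap

end Pool.Agent.helper56.SGE
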