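import Mathlib
import Pool.Agent.helper56.SGE.Comb
import Pool.Agent.helper56.SGE.Arith

/-!
# The two triangulations of a ladder program

Vertices of a ladder program `S` (`Slp`): 16 special ones, eight for every block `1 ≤ j ≤ N`, and
three for every wire `2 ≤ w ≤ 2 N + 1` (`wr w`, `wm w`, `wl w`); the wire `2 j` is the reader `A j`
of block `j`, the wire `2 j + 1` the reader `B j`.
-/

set_option autoImplicit false

namespace Pool.Agent.helper56.SGE

/-- names of the vertices -/
inductive Vx : Type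
  | O | H | V | p0 | q0 | q0p | s0 | r0 | A1 | A2 | B1 | B2 | M | J | n | anc
  | p1 (j : ℕ) | q2 (j : ℕ) | X (j : ℕ) | q3 (j : ℕ) | r4 (j : ℕ) | Y (j : ℕ) | a5 (j : ℕ)
  | a3 (j : ℕ)
  | wr (w : ℕ) | wm (w : ℕ) | wl (w : ℕ)
  deriving DecidableEq, Repr

open Vx

/-- the outer triangle -/
def oF : Face Vx := (O, H, V)

namespace Slp

variable (S : Slp)

/-- block of the port read by a wire -/
def src (w : ℕ) : ℕ := if w % 2 = 0 then S.A (w / 2) else S.B (w / 2)

/-- kind of the port read by a wire -/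
def kind (w : ℕ) : Bool := if w % 2 = 0 then S.kA (w / 2) else S.kB (w / 2)

/-- the wires reading the port `(i, k)`, in increasing order -/
def readers (i : ℕ) (k : Bool) : List ℕ :=
  (List.range (2 * S.N + 2)).filter (fun w => 2 ≤ w ∧ S.src w = i ∧ S.kind w = k)

/-- the previous reader of the same port -/
def prev (w : ℕ) : Option ℕ :=
  ((List.range w).filter (fun u => 2 ≤ u ∧ S.src u = S.src w ∧ S.kind u = S.kind w)).getLast?

/-- the last reader of a port -/
def last? (i : ℕ) (k : Bool) : Option ℕ := (S.readers i k).getLast?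

/-- the previous vertex of a row of wires, or the start `d` of the row -/
def pv (c : ℕ → Vx) (w : ℕ) (d : Vx) : Vx :=
  match S.prev w with
  | some u => c u
  | none => d

/-- the last `m` vertex of a port, or `d` if there is no reader -/
def lm (i : ℕ) (k : Bool) (d : Vx) : Vx :=
  match S.last? i k with
  | some u => wm u
  | none => d

/-- the vertex exists -/
def Valid (v : Vx) : Prop :=
  match v with
  | .p1 j | .q2 j | .X j | .q3 j | .r4 j | .Y j | .a5 j | .a3 j => 1 ≤ j ∧ j ≤ S.N
  | .wr w | .wm w | .wl w => 2 ≤ w ∧ w ≤ 2 * S.N + 1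
  | _ => True

/-! ### The first triangulation: cone from `H` over `path1` (decreasing `y`) -/

/-- the part of `path1` in block `i` -/
def blk1 (i : ℕ) : List Vx :=
  if i = S.N then [p1 i, A2, A1, q2 i, X i, q3 i, M, J, n, B2, B1, Y i, r4 i]
  else if S.ty i = .f then
    (S.readers i true).reverse.map wr ++ [p1 i, q2 i, X i] ++ (S.readers i true).map wm ++
      (S.readers i true).reverse.map wl ++ [q3 i, Y i, r4 i]
  else
    (S.readers i true).reverse.map wr ++ [p1 i] ++ (S.readers i false).reverse.map wr ++ [q2 i] ++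
      (S.readers i true).map wm ++ (S.readers i true).reverse.map wl ++ [X i, q3 i] ++
      (S.readers i false).map wm ++ (S.readers i false).reverse.map wl ++ [Y i, r4 i]

/-- blocks `i, i - 1, ..., 1` and the upper wires of block `0` -/
def blks1 : ℕ → List Vx
  | 0 => (S.readers 0 false).reverse.map wr
  | i + 1 => S.blk1 (i + 1) ++ blks1 i

/-- the rest of block `0` -/
def con1 : List Vx :=
  [p0, q0, q0p] ++ (S.readers 0 false).map wm ++ [s0] ++ (S.readers 0 false).reverse.map wl ++
    [r0, anc]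

/-- `a5 j, a3 j, ..., a5 1, a3 1` -/
def anch : ℕ → List Vx
  | 0 => []
  | j + 1 => [a5 (j + 1), a3 (j + 1)] ++ anch j

/-- all inner vertices in the order of decreasing `y` -/
def path1 : List Vx := S.blks1 S.N ++ S.con1 ++ anch S.N

/-- left neighbour in the first triangulation -/
def L1 (v : Vx) : Vx :=
  match v with
  | .O => V
  | .H => O
  | .V => O
  | .p0 => V
  | .q0 => p0
  | .q0p => q0
  | .s0 => q0
  | .r0 => s0
  | .A1 => p1 S.N
  | .A2 => p1 S.N
  | .B1 => q3 S.N
  | .B2 => q3 S.N
  | .M => q3 S.N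
  | .J => q3 S.N
  | .n => J
  | .anc => r0
  | .p1 _ => V
  | .q2 j => p1 j
  | .X j => if S.ty j = .f then q2 j else p1 j
  | .q3 j => if S.ty j = .f then X j else p1 j
  | .r4 _ => V
  | .Y j => if S.ty j = .f then q2 j else S.lm j false (q3 j)
  | .a5 _ => r0
  | .a3 _ => r0
  | .wr w =>
    if S.src w = 0 then r4 1 else if S.kind w = true then r4 (S.src w + 1) else p1 (S.src w)
  | .wm w => S.pv wm w (if S.src w = 0 then q0p else if S.kind w = false then q3 (S.src w)
      else if S.ty (S.src w) = .f then X (S.src w) else q2 (S.src w))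
  | .wl w => if S.src w = 0 then s0 else S.lm (S.src w) (S.kind w) O

/-- right neighbour in the first triangulation -/
def R1 (v : Vx) : Vx :=
  match v with
  | .O => H
  | .H => V
  | .V => H
  | .p0 => O
  | .q0 => O
  | .q0p => s0
  | .s0 => O
  | .r0 => O
  | .A1 => q2 S.N
  | .A2 => A1
  | .B1 => Y S.N
  | .B2 => B1
  | .M => J
  | .J => B2
  | .n => B2
  | .anc => a5 S.N
  | .p1 j => r4 j
  | .q2 j => if S.ty j = .f then r4 j else X j
  | .X j => if S.ty j = .f then Y j else q3 j
  | .q3 j => if S.ty j = .f then Y j else r4 j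
  | .r4 j => if j = 1 then p0 else p1 (j - 1)
  | .Y j => r4 j
  | .a5 j => a3 j
  | .a3 j => if j = 1 then O else a5 (j - 1)
  | .wr w => S.pv wr w (if S.src w = 0 then p0 else if S.kind w = true then p1 (S.src w)
      else q2 (S.src w))
  | .wm w => if S.src w = 0 then s0 else if S.kind w = false then r4 (S.src w)
      else if S.ty (S.src w) = .f then q3 (S.src w) else X (S.src w)
  | .wl w => S.pv wl w (if S.src w = 0 then r0 else if S.kind w = false then Y (S.src w)
      else if S.ty (S.src w) = .f then q3 (S.src w) else X (S.src w))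

/-- the inner faces of the first triangulation -/
def faces1 : List (Face Vx) :=
  S.path1.map (fun m => (S.L1 m, S.R1 m, m)) ++
    (pairs (V :: S.path1 ++ [O])).map (fun e => (H, e.1, e.2))

/-! ### The second triangulation: cone from `V` over `path2` (decreasing `x`) -/

def c5 (j : ℕ) : List Vx :=
  match S.ty j with
  | .g => [X j, Y j]
  | .s => [q2 j, Y j]
  | .f => [Y j]

def c4 (j : ℕ) : Vx :=
  match S.ty j with
  | .g => q2 j
  | .s => X j
  | .f => q3 j

def c3 (j : ℕ) : List Vx :=
  match S.ty j with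
  | .g => [p1 j]
  | .s => [p1 j]
  | .f => [p1 j, X j]

def c2 (j : ℕ) : Vx :=
  match S.ty j with
  | .g => q3 j
  | .s => q3 j
  | .f => q2 j

/-- the part of `path2` in block `j` -/
def blk2 (j : ℕ) : List Vx :=
  S.c5 j ++ [a5 j, wr (2 * j + 1), wm (2 * j + 1), S.c4 j] ++ S.c3 j ++
    [wl (2 * j + 1), a3 j, wr (2 * j), wm (2 * j), S.c2 j, r4 j, wl (2 * j)]

/-- blocks `j, ..., 1` -/
def blks2 : ℕ → List Vx
  | 0 => []
  | j + 1 => S.blk2 (j + 1) ++ blks2 j

/-- all inner vertices except `J`, `n` in the order of decreasing `x` -/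
def path2 : List Vx := [anc, B2, A2, M, A1, B1] ++ S.blks2 S.N ++ [p0, q0p, s0, r0, q0]

/-- the last vertex of the wires of the next block -/
def pk (j : ℕ) : Vx := if j < S.N then wl (2 * (j + 1)) else B1

/-- the last anchor of the next block -/
def pa (j : ℕ) : Vx := if j < S.N then a3 (j + 1) else anc

/-- neighbour towards larger `x` in the second triangulation -/
def L2 (v : Vx) : Vx :=
  match v with
  | .O => H
  | .H => O
  | .V => O
  | .p0 => wl 2
  | .q0 => r0
  | .q0p => wl 2
  | .s0 => q0p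
  | .r0 => q0p
  | .A1 => M
  | .A2 => B2
  | .B1 => anc
  | .B2 => anc
  | .M => A2
  | .J => A1
  | .n => A1
  | .anc => H
  | .p1 j => S.c4 j
  | .q2 j => match S.ty j with
    | .g => wm (2 * j + 1)
    | .s => S.pk j
    | .f => wm (2 * j)
  | .X j => match S.ty j with
    | .g => S.pk j
    | .s => wm (2 * j + 1)
    | .f => q3 j
  | .q3 j => match S.ty j with
    | .g => wm (2 * j)
    | .s => wm (2 * j)
    | .f => wm (2 * j + 1)
  | .r4 j => S.c2 j
  | .Y j => S.pk j
  | .a5 j => S.pa j
  | .a3 j => a5 j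
  | .wr w => if w % 2 = 0 then a3 (w / 2) else a5 (w / 2)
  | .wm w => wr w
  | .wl w => if w % 2 = 0 then a3 (w / 2) else a5 (w / 2)

/-- neighbour towards smaller `x` in the second triangulation -/
def R2 (v : Vx) : Vx :=
  match v with
  | .O => V
  | .H => V
  | .V => H
  | .p0 => q0p
  | .q0 => O
  | .q0p => O
  | .s0 => r0
  | .r0 => O
  | .A1 => B1
  | .A2 => B1
  | .B1 => a5 S.N
  | .B2 => B1
  | .M => B1
  | .J => M
  | .n => M
  | .anc => O
  | .p1 j => if S.ty j = .f then X j else wl (2 * j + 1)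
  | .q2 j => match S.ty j with
    | .g => wl (2 * j + 1)
    | .s => Y j
    | .f => wl (2 * j)
  | .X j => match S.ty j with
    | .g => Y j
    | .s => wl (2 * j + 1)
    | .f => wl (2 * j + 1)
  | .q3 j => match S.ty j with
    | .g => wl (2 * j)
    | .s => wl (2 * j)
    | .f => wl (2 * j + 1)
  | .r4 j => wl (2 * j)
  | .Y j => a5 j
  | .a5 _ => O
  | .a3 _ => O
  | .wr w => wl w
  | .wm w => wl w
  | .wl w => if w % 2 = 0 then (if w / 2 = 1 then O else a5 (w / 2 - 1)) else a3 (w / 2)

/-- the five faces in the triangle `A1, B1, M` -/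
def five : List (Face Vx) := [(A1, J, M), (J, n, M), (A1, n, J), (A1, B1, n), (n, B1, M)]

/-- the inner faces of the second triangulation -/
def faces2 : List (Face Vx) :=
  (S.path2.filter (fun m => m ≠ A1)).map (fun m => (S.L2 m, m, S.R2 m)) ++ five ++
    (pairs (H :: S.path2 ++ [O])).map (fun e => (V, e.2, e.1))

/-- the vertex set -/
def vs : Finset Vx := (O :: H :: V :: S.path1).toFinset

/-! ### Numbers of the vertices -/

/-- number of a vertex -/
def code (v : Vx) : ℕ :=
  match v with
  | .O => 0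
  | .H => 1
  | .V => 2
  | .p0 => 3
  | .q0 => 4
  | .q0p => 5
  | .s0 => 6
  | .r0 => 7
  | .A1 => 8
  | .A2 => 9
  | .B1 => 10
  | .B2 => 11
  | .M => 12
  | .J => 13
  | .n => 14
  | .anc => 15
  | .p1 j => 16 + 14 * (j - 1)
  | .q2 j => 16 + 14 * (j - 1) + 1
  | .X j => 16 + 14 * (j - 1) + 2
  | .q3 j => 16 + 14 * (j - 1) + 3
  | .r4 j => 16 + 14 * (j - 1) + 4
  | .Y j => 16 + 14 * (j - 1) + 5
  | .a5 j => 16 + 14 * (j - 1) + 6
  | .a3 j => 16 + 14 * (j - 1) + 7
  | .wr w => 16 + 14 * (w / 2 - 1) + 8 + 3 * (w % 2)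
  | .wm w => 16 + 14 * (w / 2 - 1) + 9 + 3 * (w % 2)
  | .wl w => 16 + 14 * (w / 2 - 1) + 10 + 3 * (w % 2)

/-- the vertex with number `16 + 14 * (j - 1) + c` -/
def decB (j c : ℕ) : Vx :=
  match c with
  | 0 => p1 j
  | 1 => q2 j
  | 2 => X j
  | 3 => q3 j
  | 4 => r4 j
  | 5 => Y j
  | 6 => a5 j
  | 7 => a3 j
  | 8 => wr (2 * j)
  | 9 => wm (2 * j)
  | 10 => wl (2 * j)
  | 11 => wr (2 * j + 1)
  | 12 => wm (2 * j + 1)
  | _ => wl (2 * j + 1)

/-- the vertex with a given number -/
def dec (i : ℕ) : Vx :=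
  match i with
  | 0 => O
  | 1 => H
  | 2 => V
  | 3 => p0
  | 4 => q0
  | 5 => q0p
  | 6 => s0
  | 7 => r0
  | 8 => A1
  | 9 => A2
  | 10 => B1
  | 11 => B2
  | 12 => M
  | 13 => J
  | 14 => n
  | 15 => anc
  | i + 16 => decB (i / 14 + 1) (i % 14)

/-- three neighbours in the first graph -/
def nb1 (v : Vx) : List Vx := [H, S.L1 v, S.R1 v]

/-- three neighbours in the second graph -/
def nb2 (v : Vx) : List Vx :=
  match v with
  | .J => [n, A1, M]
  | .n => [B1, A1, M]
  | _ => [V, S.L2 v, S.R2 v]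

/-- the number of vertices -/
def nvx : ℕ := 16 + 14 * S.N

/-- **The instance of SGE₂ of a ladder program.** -/
def inst : Inst :=
  (List.range S.nvx).map fun i => (List.range S.nvx).map fun j =>
    (decide (j ∈ (S.nb1 (dec i)).map code), decide (j ∈ (S.nb2 (dec i)).map code))

end Slp

end Pool.Agent.helper56.SGE
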