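import Mathlib
import Pool.Agent.helper56.SGE.Vx

/-!
# Positions for the realization of a ladder program
-/

set_option autoImplicit false

namespace Pool.Agent.helper56.SGE

open Vx

/-- Heights `h1, h2, h3` and column ratios `uK, uL` of the blocks, the constant block and the two
points `J`, `n` of the final gadget. -/
structure Sk where
  h1 : ℕ → ℝ
  h2 : ℕ → ℝ
  h3 : ℕ → ℝ
  uK : ℕ → ℝ
  uL : ℕ → ℝ
  mm : ℝ
  tt : ℝ
  x2 : ℝ
  Ju : ℝ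
  Jy : ℝ
  nu : ℝ
  ny : ℝ

namespace Sk

variable (D : Sk)

/-- ratio of the two heights of the port `(i, k)` -/
noncomputable def rat (i : ℕ) (k : Bool) : ℝ :=
  if i = 0 then (D.tt - D.mm) / (D.mm - 1) else if k = true then D.h1 i / D.h2 i
  else D.h2 i / D.h3 i

/-- The conditions on the data. -/
structure Ok (S : Slp) (D : Sk) : Prop where
  h1_pos : ∀ j, 1 ≤ j → j ≤ S.N → 0 < D.h1 j
  h2_pos : ∀ j, 1 ≤ j → j ≤ S.N → 0 < D.h2 j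
  h3_pos : ∀ j, 1 ≤ j → j ≤ S.N → 0 < D.h3 j
  uK_pos : ∀ j, 1 ≤ j → j ≤ S.N → 0 < D.uK j
  uL_pos : ∀ j, 1 ≤ j → j ≤ S.N → 0 < D.uL j
  ratA : ∀ j, 1 ≤ j → j ≤ S.N → D.rat (S.A j) (S.kA j) < D.uK j
  ratB : ∀ j, 1 ≤ j → j ≤ S.N → D.rat (S.B j) (S.kB j) < D.uL j
  gs : ∀ j, 1 ≤ j → j ≤ S.N → S.ty j ≠ .f → D.uK j * D.h3 j < D.h1 j + D.h2 j
  g : ∀ j, 1 ≤ j → j ≤ S.N → S.ty j = .g → D.uL j * D.h1 j < D.h2 j
  f1 : ∀ j, 1 ≤ j → j ≤ S.N → S.ty j = .f → D.uK j * (D.h2 j + D.h3 j) < D.h1 j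
  f2 : ∀ j, 1 ≤ j → j ≤ S.N → S.ty j = .f → D.uL j * D.h2 j < D.h3 j
  c1 : 1 < D.mm
  c2 : D.mm < D.x2
  c3 : D.x2 - 1 < 3 * (D.mm - 1)
  c4 : D.mm * D.x2 < D.tt
  fin : D.h2 S.N < D.h3 S.N
  j1 : 0 < D.Ju
  j2 : D.Ju < D.nu
  j3 : D.nu < 1
  j4 : 0 < D.ny
  j5 : D.ny < D.Jy
  j6 : D.Jy < D.h3 S.N
  /-- `J` is above the segment `q3 B2` -/
  j7 : D.h3 S.N - D.Jy < D.h3 S.N * D.Ju / 2
  /-- `n` is above the segment `J B2` -/
  j8 : 0 < (2 - D.Ju) * (D.ny - D.Jy) + D.Jy * (D.nu - D.Ju)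
  /-- face `A1, J, M` -/
  j9 : D.Ju * D.h2 S.N < D.h2 S.N + D.h3 S.N - D.Jy
  /-- face `J, n, M` -/
  j10 : 0 < (D.nu - D.Ju) * (D.h3 S.N - D.Jy) - (D.ny - D.Jy) * (1 - D.Ju)
  /-- face `A1, n, J` -/
  j11 : 0 < D.nu * (D.Jy - (D.h2 S.N + D.h3 S.N)) - (D.ny - (D.h2 S.N + D.h3 S.N)) * D.Ju
  /-- face `n, B1, M` -/
  j12 : D.h3 S.N * D.nu < D.ny

/-- top row of the block `j` -/
noncomputable def top : ℕ → ℝ
  | 0 => D.tt
  | j + 1 => top j + 1 + D.h3 (j + 1) + D.h2 (j + 1) + D.h1 (j + 1)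

/-- rows of the block `j ≥ 1` -/
noncomputable def Y4 (j : ℕ) : ℝ := D.top (j - 1) + 1
noncomputable def Y3 (j : ℕ) : ℝ := D.Y4 j + D.h3 j
noncomputable def Y2 (j : ℕ) : ℝ := D.Y3 j + D.h2 j
noncomputable def Y1 (j : ℕ) : ℝ := D.Y2 j + D.h1 j

/-- last column of the block `j` -/
noncomputable def right : ℕ → ℝ
  | 0 => D.x2
  | j + 1 => right j + 1 + 1 + D.uK (j + 1) + 1 + D.uL (j + 1)

/-- columns of the block `j ≥ 1` -/
noncomputable def X1 (j : ℕ) : ℝ := D.right (j - 1) + 1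
noncomputable def X2 (j : ℕ) : ℝ := D.X1 j + 1
noncomputable def X3 (j : ℕ) : ℝ := D.X2 j + D.uK j
noncomputable def X4 (j : ℕ) : ℝ := D.X3 j + 1
noncomputable def X5 (j : ℕ) : ℝ := D.X4 j + D.uL j

/-- upper, middle and lower row of a port -/
noncomputable def rT (i : ℕ) (k : Bool) : ℝ :=
  if i = 0 then D.tt else if k = true then D.Y1 i else D.Y2 i
noncomputable def rM (i : ℕ) (k : Bool) : ℝ :=
  if i = 0 then D.mm else if k = true then D.Y2 i else D.Y3 i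
noncomputable def rB (i : ℕ) (k : Bool) : ℝ :=
  if i = 0 then 1 else if k = true then D.Y3 i else D.Y4 i

/-- the row (exact `y` coordinate) of a vertex -/
noncomputable def row (S : Slp) (v : Vx) : ℝ :=
  match v with
  | .O => 0
  | .H => 0
  | .V => 0
  | .p0 => D.tt
  | .q0 => D.mm
  | .q0p => D.mm
  | .s0 => 1 + (D.mm - 1) * 3 / 4
  | .r0 => 1
  | .A1 => D.Y2 S.N
  | .A2 => D.Y2 S.N
  | .B1 => D.Y4 S.N
  | .B2 => D.Y4 S.N
  | .M => D.Y3 S.N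
  | .J => D.Y4 S.N + D.Jy
  | .n => D.Y4 S.N + D.ny
  | .anc => 1 / 2
  | .p1 j => D.Y1 j
  | .q2 j => D.Y2 j
  | .X j => if S.ty j = .f then D.Y2 j else D.Y3 j
  | .q3 j => D.Y3 j
  | .r4 j => D.Y4 j
  | .Y j => D.Y4 j
  | .a5 _ => 1 / 2
  | .a3 _ => 1 / 2
  | .wr w => D.rT (S.src w) (S.kind w)
  | .wm w => D.rM (S.src w) (S.kind w)
  | .wl w => D.rB (S.src w) (S.kind w)

/-- the column (exact `x` coordinate) of a vertex -/
noncomputable def col (S : Slp) (v : Vx) : ℝ :=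
  match v with
  | .O => 0
  | .H => 0
  | .V => 0
  | .p0 => D.x2
  | .q0 => 1
  | .q0p => D.x2
  | .s0 => 1 + (D.x2 - 1) / 4
  | .r0 => 1
  | .A1 => D.right S.N + 1
  | .A2 => D.right S.N + 3
  | .B1 => D.right S.N + 1
  | .B2 => D.right S.N + 3
  | .M => D.right S.N + 2
  | .J => D.right S.N + 1 + D.Ju
  | .n => D.right S.N + 1 + D.nu
  | .anc => D.right S.N + 3
  | .p1 j => D.X3 j
  | .q2 j => match S.ty j with
    | .g => D.X4 j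
    | .s => D.X5 j
    | .f => D.X2 j
  | .X j => match S.ty j with
    | .g => D.X5 j
    | .s => D.X4 j
    | .f => D.X3 j
  | .q3 j => match S.ty j with
    | .g => D.X2 j
    | .s => D.X2 j
    | .f => D.X4 j
  | .r4 j => D.X1 j
  | .Y j => D.X5 j
  | .a5 j => D.X5 j
  | .a3 j => D.X3 j
  | .wr w => if w % 2 = 0 then D.X3 (w / 2) else D.X5 (w / 2)
  | .wm w => if w % 2 = 0 then D.X2 (w / 2) else D.X4 (w / 2)
  | .wl w => if w % 2 = 0 then D.X1 (w / 2) else D.X3 (w / 2)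

end Sk

end Pool.Agent.helper56.SGE
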