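import Pool.Agent.helper56.SGE.C3
import Pool.Agent.helper98.Gap.M1
import Pool.Agent.helper98.Tsei.M2
import Pool.Agent.helper50.SGE.M3
import Pool.Agent.helper6.SGE.M4
import Pool.Agent.helper73.SGE.M9a
import Pool.Agent.helper73.SGE.M9b
import Pool.Agent.helper39.SGE.M10
import Pool.Agent.helper81.PolyComp
import Pool.Agent.helper85.SGE.O34
import Pool.Agent.helper85.SGE.C2
import Pool.Agent.helper50.SGE.C1
import Pool.Agent.helper39.SGE.R1
import Pool.Agent.helper29.SGE.R5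
import Pool.Agent.helper29.SGE.R2
import Pool.Agent.helper73.SGE.C5
import Pool.Agent.helper6.SGE.C4
import Pool.Agent.helper50.SGE.C6
import Pool.Agent.helper3.SGE.G1
import Pool.Agent.helper81.SGE.R3
import Pool.Agent.helper70.SGE.R4
import Pool.Agent.helper9.SGE.O2
import Pool.Agent.helper10.SgeO1

/-!
# Assembly: SGE₂ is complete for the class of the existential theory of the reals
-/

set_option autoImplicit false

namespace Pool.Agent.helper56.SGE.Fin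

open N68a2faeb N793a5b8e Pool.Agent.H54.PT Vx

theorem geo {α : Type} [DecidableEq α] {S : Finset α} {o : Face α} {F1 F2 : List (Face α)}
    (h1 : Sphere S o F1) (h2 : Sphere S o F2) (hd : ∀ f ∈ F1, ∀ g ∈ F2, f.verts ≠ g.verts) :
    (∃ p, IsSGEOn S (trE o F1 F2) p) ↔ Real2 S o F1 F2 :=
  Pool.Agent.helper85.SGE.O4_of h1 h2 (fun _ h => Pool.Agent.helper10.SgeO1.O1 h1 h2 hd h)
    (fun _ h _ hp hpos => Pool.Agent.helper9.SGE.O2 h hp hpos)

theorem realize (S : Slp) (h : S.WF) (hs : S.Sat) : Real2 S.vs oF S.faces1 S.faces2 := by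
  obtain ⟨D, hD⟩ := Pool.Agent.helper39.SGE.R.R1 S h hs
  obtain ⟨r1, r2⟩ := Pool.Agent.helper29.SGE.R2a S h D hD
  obtain ⟨r4, r5⟩ := Pool.Agent.helper70.SGE.R4 S h D hD
  exact Pool.Agent.helper29.SGE.R5 S h (Pool.Agent.helper85.SGE.C2a S h)
    (Pool.Agent.helper85.SGE.C2b S h) (D.row S) (D.col S) r1 r2
    (Pool.Agent.helper29.SGE.R2b S h D hD) (Pool.Agent.helper81.SGE.R3 S h D hD) r4 r5

theorem inst_iff (S : Slp) (h : S.WF) : Square S.inst ∧
    ((∃ p, IsSGE (graphOf S.inst) p) ↔ ∃ p, IsSGEOn S.vs (trE oF S.faces1 S.faces2) p) :=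
  Pool.Agent.helper50.C6.instance_iff S (Pool.Agent.helper85.SGE.C2a S h).2
    (Pool.Agent.helper85.SGE.C2b S h).2 (Slp.C3a S h) (Slp.C3b S h)

theorem chain (Q : QSys) (h : Q.WF) : Q.Sat ↔ ∃ p, IsSGE (graphOf Q.toPap.toSlp.inst) p := by
  have h3 := Pool.Agent.helper50.M3.toPap_correct Q h
  have h4 := Pool.Agent.helper6.SGE.M4 Q.toPap h3.1
  have hw := h4.1
  rw [Pool.Agent.helper98.Gap.M1 Q h, h3.2, h4.2, (inst_iff _ hw).2,
    geo (Pool.Agent.helper6.SGE.C4a _ hw) (Pool.Agent.helper6.SGE.C4b _ hw) (Pool.Agent.helper73.SGE.C5 _ hw)]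
  exact ⟨realize _ hw, Pool.Agent.helper3.SGE.G1 _ hw⟩

theorem sge2_inst (M : Inst) (h : Square M) :
    SGE2 (N487b59b3.bitEncode M) = true ↔ ∃ p, IsSGE (graphOf M) p := by
  simp only [SGE2, decide_eq_true_eq, N487b59b3.bitDecode_bitEncode, Option.some.injEq]
  constructor
  · rintro ⟨M', rfl, -, h'⟩
    exact h'
  · intro h'
    exact ⟨M, rfl, h, h'⟩

theorem etr_le : ManyOneReducible ETR SGE2 := by
  obtain ⟨F, hF, c1, c2, c3⟩ := Pool.Agent.helper98.Tsei.M2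
  obtain ⟨d0, d1, d2, d3, d4, d5⟩ := Pool.Agent.helper73.SGE.M9a F c1 c2 c3
  refine manyOne (Pool.Agent.helper73.SGE.M9b (fun x => (F x).toPap.toSlp) d0 d1 d2 d3 d4 d5)
    fun x => ?_
  have hw := (Pool.Agent.helper6.SGE.M4 _
    (Pool.Agent.helper50.M3.toPap_correct _ (hF x).1).1).1
  rw [Bool.eq_iff_iff, (hF x).2, chain _ (hF x).1, sge2_inst _ (inst_iff _ hw).1]

theorem main : IsCompleteFor ER SGE2 := by
  refine ⟨Pool.Agent.helper39.SGE.M10, fun L hL => ?_⟩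
  obtain ⟨f, hf, hf'⟩ := hL
  obtain ⟨g, hg, hg'⟩ := etr_le
  exact ⟨_, Pool.Agent.helper81.PolyComp.isPolyTime_comp hf hg, fun x => by rw [hf', hg']⟩

end Pool.Agent.helper56.SGE.Fin
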