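import Mathlib
import Pool.Agent.helper56.SGE.Vx

/-!
# The two paths bound triangulated polygons (module C3)
-/

set_option autoImplicit false

namespace Pool.Agent.helper56.SGE

open Vx

section fans

variable {α : Type*} {L R : α → α}

lemma TriL.single {a b m : α} (h1 : L m = a) (h2 : R m = b) : TriL L R a [m] b :=
  TriL.node a b m [] [] h1 h2 (.nil _ _) (.nil _ _)

/-- all right ends are `b` -/
lemma TriL.fanR {a b : α} {l r : List α} (h1 : ∀ m ∈ l, R m = b)
    (h2 : List.IsChain (fun x y => L y = x) (a :: l))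
    (h3 : TriL L R ((a :: l).getLast (List.cons_ne_nil _ _)) r b) : TriL L R a (l ++ r) b := by
  induction l generalizing a with
  | nil => simpa using h3
  | cons m l ih =>
    rw [List.isChain_cons_cons] at h2
    have := ih (a := m) (fun x hx => h1 x (List.mem_cons_of_mem _ hx)) h2.2
      (by simpa using h3)
    exact TriL.node a b m [] (l ++ r) h2.1 (h1 m List.mem_cons_self) (.nil _ _) this

/-- all left ends are `a` -/
lemma TriL.fanL {a b : α} {l : List α} (h1 : ∀ m ∈ l, L m = a)
    (h2 : List.IsChain (fun x y => R x = y) (l ++ [b])) : TriL L R a l b := by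
  induction l using List.reverseRecOn generalizing b with
  | nil => exact .nil _ _
  | append_singleton l m ih =>
    have h4 : List.IsChain (fun x y => R x = y) (l ++ [m]) := by
      rw [List.append_assoc] at h2
      have := List.isChain_append.1 h2
      have h5 := List.isChain_split (R := fun x y => R x = y) (c := m) (l₁ := l) (l₂ := [b])
      exact (h5.1 (by simpa using h2)).1
    have h5 : R m = b := by
      have h5 := List.isChain_split (R := fun x y => R x = y) (c := m) (l₁ := l) (l₂ := [b])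
      have := (h5.1 (by simpa using h2)).2
      simpa using this
    exact TriL.node a b m l [] (h1 m (by simp)) h5 (ih (fun x hx => h1 x (by simp [hx])) h4)
      (.nil _ _)

end fans

namespace Slp

variable {S : Slp}

lemma filter_range_split {P : ℕ → Bool} {M w : ℕ} (hw : w < M) (hP : P w = true) :
    (List.range M).filter P = (List.range w).filter P ++ w ::
      ((List.range' (w + 1) (M - w - 1)).filter P) := by
  have : List.range M = List.range w ++ (w :: List.range' (w + 1) (M - w - 1)) := by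
    rw [List.range_eq_range', List.range_eq_range']
    have h1 : M = w + (1 + (M - w - 1)) := by omega
    conv_lhs => rw [h1]
    rw [← List.range'_append_1]
    simp only [Nat.zero_add]
    rw [add_comm 1, List.range'_succ]
  rw [this, List.filter_append, List.filter_cons_of_pos hP]

lemma mem_readers {i : ℕ} {k : Bool} {w : ℕ} :
    w ∈ S.readers i k ↔ w < 2 * S.N + 2 ∧ 2 ≤ w ∧ S.src w = i ∧ S.kind w = k := by
  simp [readers]

lemma prev_eq {i : ℕ} {k : Bool} {w : ℕ} (hw : w ∈ S.readers i k) {l1 l2 : List ℕ}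
    (h : S.readers i k = l1 ++ w :: l2) : S.prev w = l1.getLast? := by
  obtain ⟨h1, h2, h3, h4⟩ := mem_readers.1 hw
  have e := filter_range_split (P := fun u => decide (2 ≤ u ∧ S.src u = i ∧ S.kind u = k)) h1
    (by simp [h2, h3, h4])
  change S.readers i k = _ at e
  rw [h] at e
  have hn : (S.readers i k).Nodup := List.nodup_range.filter _
  rw [h] at hn
  have key : l1 = (List.range w).filter (fun u => decide (2 ≤ u ∧ S.src u = i ∧ S.kind u = k)) := by
    have n1 : w ∉ l1 := by
      intro hh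
      rw [List.nodup_append] at hn
      exact hn.2.2 w hh w (List.mem_cons_self) rfl
    have n2 : w ∉ l2 := by
      intro hh
      rw [List.nodup_append, List.nodup_cons] at hn
      exact hn.2.1.1 hh
    exact ((List.append_cons_inj_of_notMem n1 n2).1 e).1
  rw [key, prev, h3, h4]

/-- consecutive readers -/
lemma readers_chain (i : ℕ) (k : Bool) :
    List.IsChain (fun u w => S.prev w = some u) (S.readers i k) := by
  rw [List.isChain_iff_forall_rel_of_append_cons_cons]
  intro u w l1 l2 h
  have := prev_eq (S := S) (i := i) (k := k) (w := w) (by rw [h]; simp) (l1 := l1 ++ [u])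
    (l2 := l2) (by rw [h]; simp)
  rw [this]
  simp

lemma readers_head {i : ℕ} {k : Bool} {w : ℕ} {l : List ℕ} (h : S.readers i k = w :: l) :
    S.prev w = none := by
  rw [prev_eq (S := S) (i := i) (k := k) (w := w) (by rw [h]; simp) (l1 := []) (l2 := l)
    (by rw [h]; simp)]
  rfl

/-- the chain of `c` vertices of the readers, for a neighbour function `f` -/
lemma chain_up (i : ℕ) (k : Bool) (c : ℕ → Vx) (f : Vx → Vx) (d : Vx)
    (h : ∀ w ∈ S.readers i k, f (c w) = S.pv c w d) :
    List.IsChain (fun x y => f y = x) (d :: (S.readers i k).map c) := by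
  have h1 := readers_chain (S := S) i k
  have h2 := fun w l => readers_head (S := S) (i := i) (k := k) (w := w) (l := l)
  generalize S.readers i k = l at h h1 h2
  cases l with
  | nil => simp
  | cons w l =>
    rw [List.map_cons, List.isChain_cons_cons]
    refine ⟨?_, ?_⟩
    · rw [h w (by simp), pv, h2 w l rfl]
    · clear h2
      induction l generalizing w with
      | nil => simp
      | cons w' l ih =>
        rw [List.isChain_cons_cons] at h1
        rw [List.map_cons, List.isChain_cons_cons]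
        refine ⟨?_, ih w' (fun x hx => h x (by simp at hx ⊢; tauto)) h1.2⟩
        rw [h w' (by simp), pv, h1.1]

lemma chain_down (i : ℕ) (k : Bool) (c : ℕ → Vx) (f : Vx → Vx) (d : Vx)
    (h : ∀ w ∈ S.readers i k, f (c w) = S.pv c w d) :
    List.IsChain (fun x y => f x = y) ((S.readers i k).reverse.map c ++ [d]) := by
  have := chain_up i k c f d h
  rw [← List.isChain_reverse] at this
  simpa using this

/-- last vertex of a row of `wm` -/
lemma getLast_wm (i : ℕ) (k : Bool) (d : Vx) :
    (d :: (S.readers i k).map wm).getLast (List.cons_ne_nil _ _) = S.lm i k d := by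
  rw [lm, last?]
  generalize S.readers i k = l
  induction l using List.reverseRecOn with
  | nil => simp
  | append_singleton l a ih => simp

lemma tri_wr (i : ℕ) (k : Bool) (a b : Vx) (h1 : ∀ w ∈ S.readers i k, S.L1 (wr w) = a)
    (h2 : ∀ w ∈ S.readers i k, S.R1 (wr w) = S.pv wr w b) :
    TriL S.L1 S.R1 a ((S.readers i k).reverse.map wr) b :=
  TriL.fanL (by simpa using h1) (chain_down i k wr S.R1 b h2)

lemma tri_wl (i : ℕ) (k : Bool) (a b : Vx) (h1 : ∀ w ∈ S.readers i k, S.L1 (wl w) = a)
    (h2 : ∀ w ∈ S.readers i k, S.R1 (wl w) = S.pv wl w b) :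
    TriL S.L1 S.R1 a ((S.readers i k).reverse.map wl) b :=
  TriL.fanL (by simpa using h1) (chain_down i k wl S.R1 b h2)

lemma tri_wm (i : ℕ) (k : Bool) (a b : Vx) (r : List Vx)
    (h1 : ∀ w ∈ S.readers i k, S.R1 (wm w) = b)
    (h2 : ∀ w ∈ S.readers i k, S.L1 (wm w) = S.pv wm w a)
    (h3 : TriL S.L1 S.R1 (S.lm i k a) r b) :
    TriL S.L1 S.R1 a ((S.readers i k).map wm ++ r) b :=
  TriL.fanR (by simpa using h1) (chain_up i k wm S.L1 a h2) (by rw [getLast_wm]; exact h3)

lemma src_lt (h : S.WF) {w : ℕ} (h1 : 2 ≤ w) (h2 : w < 2 * S.N + 2) : S.src w < w / 2 := by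
  unfold src
  split_ifs
  · exact h.A_lt _ (by omega) (by omega)
  · exact h.B_lt _ (by omega) (by omega)

lemma okPort_src (h : S.WF) {w : ℕ} (h1 : 2 ≤ w) (h2 : w < 2 * S.N + 2) :
    S.OkPort (S.src w) (S.kind w) := by
  unfold src kind
  split_ifs
  · exact h.okA _ (by omega) (by omega)
  · exact h.okB _ (by omega) (by omega)

lemma readers_N (h : S.WF) {i : ℕ} (hi : S.N ≤ i) (k : Bool) : S.readers i k = [] := by
  rw [List.eq_nil_iff_forall_not_mem]
  intro w hw
  obtain ⟨h1, h2, h3, h4⟩ := mem_readers.1 hw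
  have := src_lt h h2 h1
  omega

lemma readers_g (h : S.WF) {i : ℕ} (hi : i ≠ 0) (hg : S.ty i = .g) : S.readers i true = [] := by
  rw [List.eq_nil_iff_forall_not_mem]
  intro w hw
  obtain ⟨h1, h2, h3, h4⟩ := mem_readers.1 hw
  have := okPort_src h h2 h1
  rw [h3, h4] at this
  simp [OkPort, hi, hg] at this

lemma readers_f (h : S.WF) {i : ℕ} (hi : i ≠ 0) (hf : S.ty i = .f) : S.readers i false = [] := by
  rw [List.eq_nil_iff_forall_not_mem]
  intro w hw
  obtain ⟨h1, h2, h3, h4⟩ := mem_readers.1 hw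
  have := okPort_src h h2 h1
  rw [h3, h4] at this
  simp [OkPort, hi, hf] at this

/-- upper wires of the block `i` -/
def tw (S : Slp) (i : ℕ) : List Vx :=
  if i = 0 then (S.readers 0 false).reverse.map wr else (S.readers i true).reverse.map wr

/-- top vertex of the block `i` -/
def tv (i : ℕ) : Vx := if i = 0 then p0 else p1 i

/-- the middle part of the block `i` -/
def mid (S : Slp) (i : ℕ) : List Vx :=
  if i = S.N then [A2, A1, q2 i, X i, q3 i, M, J, n, B2, B1, Y i]
  else if S.ty i = .f then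
    [q2 i, X i] ++ (S.readers i true).map wm ++ (S.readers i true).reverse.map wl ++ [q3 i, Y i]
  else
    (S.readers i false).reverse.map wr ++ [q2 i] ++
      (S.readers i true).map wm ++ (S.readers i true).reverse.map wl ++ [X i, q3 i] ++
      (S.readers i false).map wm ++ (S.readers i false).reverse.map wl ++ [Y i]

lemma blk1_eq (h : S.WF) {i : ℕ} (hi : i ≠ 0) :
    S.blk1 i = S.tw i ++ p1 i :: (S.mid i ++ [r4 i]) := by
  unfold blk1 tw mid
  rw [if_neg hi]
  by_cases h1 : i = S.N
  · rw [if_pos h1, if_pos h1, readers_N h h1.ge]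
    rfl
  · rw [if_neg h1, if_neg h1]
    split_ifs
    · simp
    · simp

lemma tri_mid (h : S.WF) {i : ℕ} (hi : i ≠ 0) : TriL S.L1 S.R1 (p1 i) (S.mid i) (r4 i) := by
  unfold mid
  by_cases h1 : i = S.N
  · rw [if_pos h1]
    subst h1
    have hg := h.last
    have e : S.lm S.N false (q3 S.N) = q3 S.N := by
      rw [lm, last?, readers_N h le_rfl]; rfl
    refine TriL.node _ _ (q3 S.N) [A2, A1, q2 S.N, X S.N] [M, J, n, B2, B1, Y S.N]
      (by simp [L1, hg]) (by simp [R1, hg]) ?_ ?_
    · refine TriL.node _ _ (X S.N) [A2, A1, q2 S.N] [] (by simp [L1, hg]) (by simp [R1, hg]) ?_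
        (.nil _ _)
      refine TriL.node _ _ (q2 S.N) [A2, A1] [] (by simp [L1]) (by simp [R1, hg]) ?_ (.nil _ _)
      refine TriL.node _ _ A1 [A2] [] (by simp [L1]) (by simp [R1]) ?_ (.nil _ _)
      exact TriL.single (by simp [L1]) (by simp [R1])
    · refine TriL.node _ _ (Y S.N) [M, J, n, B2, B1] [] (by simp [L1, hg, e]) (by simp [R1]) ?_
        (.nil _ _)
      refine TriL.node _ _ B1 [M, J, n, B2] [] (by simp [L1]) (by simp [R1]) ?_ (.nil _ _)
      refine TriL.node _ _ B2 [M, J, n] [] (by simp [L1]) (by simp [R1]) ?_ (.nil _ _)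
      refine TriL.node _ _ J [M] [n] (by simp [L1]) (by simp [R1]) ?_ ?_
      · exact TriL.single (by simp [L1]) (by simp [R1])
      · exact TriL.single (by simp [L1]) (by simp [R1])
  rw [if_neg h1]
  by_cases hf : S.ty i = .f
  · rw [if_pos hf]
    have e : [q2 i, X i] ++ List.map wm (S.readers i true) ++
        List.map wl (S.readers i true).reverse ++ [q3 i, Y i] =
        [] ++ q2 i :: (([] ++ X i :: (((S.readers i true).map wm ++
          (S.readers i true).reverse.map wl) ++ q3 i :: [])) ++ Y i :: []) := by simp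
    rw [e]
    refine TriL.node _ _ _ _ _ (by simp [L1]) (by simp [R1, hf]) (.nil _ _) ?_
    refine TriL.node _ _ _ _ _ (by simp [L1, hf]) (by simp [R1]) ?_ (.nil _ _)
    refine TriL.node _ _ _ _ _ (by simp [L1, hf]) (by simp [R1, hf]) (.nil _ _) ?_
    refine TriL.node _ _ _ _ _ (by simp [L1, hf]) (by simp [R1, hf]) ?_ (.nil _ _)
    refine tri_wm i true _ _ _ ?_ ?_ (tri_wl i true _ _ ?_ ?_)
    · intro w hw
      obtain ⟨g1, g2, g3, g4⟩ := mem_readers.1 hw
      simp [R1, g3, g4, hi, hf]
    · intro w hw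
      obtain ⟨g1, g2, g3, g4⟩ := mem_readers.1 hw
      simp [L1, g3, g4, hi, hf]
    · intro w hw
      obtain ⟨g1, g2, g3, g4⟩ := mem_readers.1 hw
      rw [L1, g3, g4, if_neg hi]
      have : (S.last? i true).isSome := by
        rw [last?, List.getLast?_isSome]
        exact List.ne_nil_of_mem hw
      obtain ⟨u, hu⟩ := Option.isSome_iff_exists.1 this
      simp [lm, hu]
    · intro w hw
      obtain ⟨g1, g2, g3, g4⟩ := mem_readers.1 hw
      simp [R1, g3, g4, hi, hf]
  · rw [if_neg hf]
    have e : (S.readers i false).reverse.map wr ++ [q2 i] ++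
      (S.readers i true).map wm ++ (S.readers i true).reverse.map wl ++ [X i, q3 i] ++
      (S.readers i false).map wm ++ (S.readers i false).reverse.map wl ++ [Y i] =
      ((((S.readers i false).reverse.map wr ++ q2 i :: ((S.readers i true).map wm ++
        (S.readers i true).reverse.map wl)) ++ X i :: [])) ++ q3 i ::
        ((S.readers i false).map wm ++ ((S.readers i false).reverse.map wl ++ Y i :: [])) := by
      simp
    rw [e]
    refine TriL.node _ _ _ _ _ (by simp [L1, hf]) (by simp [R1, hf]) ?_ ?_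
    · refine TriL.node _ _ _ _ _ (by simp [L1, hf]) (by simp [R1, hf]) ?_ (.nil _ _)
      refine TriL.node _ _ _ _ _ (by simp [L1]) (by simp [R1, hf]) ?_ ?_
      · refine tri_wr i false _ _ ?_ ?_
        · intro w hw
          obtain ⟨g1, g2, g3, g4⟩ := mem_readers.1 hw
          simp [L1, g3, g4, hi]
        · intro w hw
          obtain ⟨g1, g2, g3, g4⟩ := mem_readers.1 hw
          simp [R1, g3, g4, hi]
      · refine tri_wm i true _ _ _ ?_ ?_ (tri_wl i true _ _ ?_ ?_)
        · intro w hw
          obtain ⟨g1, g2, g3, g4⟩ := mem_readers.1 hw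
          simp [R1, g3, g4, hi, hf]
        · intro w hw
          obtain ⟨g1, g2, g3, g4⟩ := mem_readers.1 hw
          simp [L1, g3, g4, hi, hf]
        · intro w hw
          obtain ⟨g1, g2, g3, g4⟩ := mem_readers.1 hw
          rw [L1, g3, g4, if_neg hi]
          have : (S.last? i true).isSome := by
            rw [last?, List.getLast?_isSome]
            exact List.ne_nil_of_mem hw
          obtain ⟨u, hu⟩ := Option.isSome_iff_exists.1 this
          simp [lm, hu]
        · intro w hw
          obtain ⟨g1, g2, g3, g4⟩ := mem_readers.1 hw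
          simp [R1, g3, g4, hi, hf]
    · refine tri_wm i false _ _ _ ?_ ?_ ?_
      · intro w hw
        obtain ⟨g1, g2, g3, g4⟩ := mem_readers.1 hw
        simp [R1, g3, g4, hi]
      · intro w hw
        obtain ⟨g1, g2, g3, g4⟩ := mem_readers.1 hw
        simp [L1, g3, g4, hi]
      · refine TriL.node _ _ _ _ _ (by simp [L1, hf]) (by simp [R1]) ?_ (.nil _ _)
        refine tri_wl i false _ _ ?_ ?_
        · intro w hw
          obtain ⟨g1, g2, g3, g4⟩ := mem_readers.1 hw
          rw [L1, g3, g4, if_neg hi]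
          have : (S.last? i false).isSome := by
            rw [last?, List.getLast?_isSome]
            exact List.ne_nil_of_mem hw
          obtain ⟨u, hu⟩ := Option.isSome_iff_exists.1 this
          simp [lm, hu]
        · intro w hw
          obtain ⟨g1, g2, g3, g4⟩ := mem_readers.1 hw
          simp [R1, g3, g4, hi]

lemma tri_tw (h : S.WF) {i : ℕ} (hi : i < S.N) :
    TriL S.L1 S.R1 (r4 (i + 1)) (S.tw i) (tv i) := by
  unfold tw tv
  by_cases h0 : i = 0
  · subst h0
    rw [if_pos rfl, if_pos rfl]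
    refine tri_wr 0 false _ _ ?_ ?_
    · intro w hw
      obtain ⟨g1, g2, g3, g4⟩ := mem_readers.1 hw
      simp [L1, g3]
    · intro w hw
      obtain ⟨g1, g2, g3, g4⟩ := mem_readers.1 hw
      simp [R1, g3]
  · rw [if_neg h0, if_neg h0]
    refine tri_wr i true _ _ ?_ ?_
    · intro w hw
      obtain ⟨g1, g2, g3, g4⟩ := mem_readers.1 hw
      simp [L1, g3, g4, h0]
    · intro w hw
      obtain ⟨g1, g2, g3, g4⟩ := mem_readers.1 hw
      simp [R1, g3, g4, h0]

/-- the part of `blks1` above the top vertex of the block `i` -/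
lemma tri_top (h : S.WF) (d : ℕ) : ∀ i, i + d = S.N → ∃ l, TriL S.L1 S.R1 V l (tv i) ∧
    S.blks1 S.N = l ++ (if i = 0 then [] else tv i :: (S.mid i ++ r4 i :: S.blks1 (i - 1))) := by
  induction d with
  | zero =>
    intro i hi
    have hi' : i = S.N := by omega
    subst hi'
    have hN : S.N ≠ 0 := by have := h.one_le; omega
    refine ⟨[], .nil _ _, ?_⟩
    rw [if_neg hN]
    obtain ⟨k, hk⟩ : ∃ k, S.N = k + 1 := ⟨S.N - 1, by omega⟩
    rw [hk, blks1, ← hk, blk1_eq h hN, tw, if_neg hN, readers_N h le_rfl, tv, if_neg hN]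
    simp [hk]
  | succ d ih =>
    intro i hi
    obtain ⟨l, hl1, hl2⟩ := ih (i + 1) (by omega)
    rw [if_neg (by omega)] at hl2
    have e : tv (i + 1) = p1 (i + 1) := by simp [tv]
    rw [e] at hl1 hl2
    refine ⟨(l ++ p1 (i + 1) :: S.mid (i + 1)) ++ r4 (i + 1) :: S.tw i, ?_, ?_⟩
    · refine TriL.node _ _ _ _ _ (by simp [L1]) (by simp [R1, tv]) ?_ (tri_tw h (by omega))
      refine TriL.node _ _ _ _ _ (by simp [L1]) (by simp [R1]) hl1 (tri_mid h (by omega))
    · rw [hl2]
      by_cases h0 : i = 0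
      · subst h0
        simp [blks1, tw]
      · rw [if_neg h0]
        obtain ⟨k, rfl⟩ : ∃ k, i = k + 1 := ⟨i - 1, by omega⟩
        simp only [Nat.add_sub_cancel]
        rw [blks1, blk1_eq h h0]
        simp [tv]

lemma tri_anch (m : ℕ) : ∀ (a : Vx) (l : List Vx), (∀ x ∈ l, S.L1 x = r0) →
    List.IsChain (fun x y => S.R1 x = y) (l ++ [if m = 0 then O else a5 m]) →
    TriL S.L1 S.R1 r0 (l ++ anch m) O := by
  induction m with
  | zero =>
    intro a l h1 h2
    rw [if_pos rfl] at h2
    rw [anch, List.append_nil]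
    exact TriL.fanL h1 h2
  | succ m ih =>
    intro a l h1 h2
    have h3 := ih a (l ++ [a5 (m + 1), a3 (m + 1)]) ?_ ?_
    · rw [anch]
      simpa using h3
    · intro x hx
      simp only [List.mem_append, List.mem_cons, List.not_mem_nil, or_false] at hx
      rcases hx with hx | rfl | rfl
      · exact h1 x hx
      · simp [L1]
      · simp [L1]
    · rw [if_neg (by omega)] at h2
      have : l ++ [a5 (m + 1), a3 (m + 1)] ++ [if m = 0 then O else a5 m] =
          l ++ a5 (m + 1) :: [a3 (m + 1), if m = 0 then O else a5 m] := by simp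
      rw [this, List.isChain_split]
      refine ⟨h2, ?_⟩
      simp [R1]

theorem C3a (S : Slp) (h : S.WF) : TriL S.L1 S.R1 V S.path1 O := by
  obtain ⟨l, hl1, hl2⟩ := tri_top h S.N 0 (by omega)
  rw [if_pos rfl, List.append_nil] at hl2
  have e : S.path1 = l ++ p0 :: ([] ++ q0 :: (([] ++ q0p :: (S.readers 0 false).map wm) ++ s0 ::
      ((S.readers 0 false).reverse.map wl ++ r0 :: ([anc] ++ anch S.N)))) := by
    rw [path1, hl2, con1]
    simp
  rw [e]
  refine TriL.node _ _ _ _ _ (by simp [L1]) (by simp [R1]) (by simpa [tv] using hl1) ?_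
  refine TriL.node _ _ _ _ _ (by simp [L1]) (by simp [R1]) (.nil _ _) ?_
  refine TriL.node _ _ _ _ _ (by simp [L1]) (by simp [R1]) ?_ ?_
  · refine TriL.node _ _ _ _ _ (by simp [L1]) (by simp [R1]) (.nil _ _) ?_
    have := tri_wm (S := S) 0 false q0p s0 [] ?_ ?_ (.nil _ _)
    · simpa using this
    · intro w hw
      obtain ⟨g1, g2, g3, g4⟩ := mem_readers.1 hw
      simp [R1, g3]
    · intro w hw
      obtain ⟨g1, g2, g3, g4⟩ := mem_readers.1 hw
      simp [L1, g3]
  · refine TriL.node _ _ _ _ _ (by simp [L1]) (by simp [R1]) ?_ ?_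
    · refine tri_wl 0 false _ _ ?_ ?_
      · intro w hw
        obtain ⟨g1, g2, g3, g4⟩ := mem_readers.1 hw
        simp [L1, g3]
      · intro w hw
        obtain ⟨g1, g2, g3, g4⟩ := mem_readers.1 hw
        simp [R1, g3]
    · have hN : S.N ≠ 0 := by have := h.one_le; omega
      refine tri_anch S.N O [anc] (by simp [L1]) ?_
      rw [if_neg hN]
      simp [R1]

/-! ### The second path -/

/-- the end of `path2` -/
def tl2 : List Vx := [p0, q0p, s0, r0, q0]

lemma tri_c5 (j : ℕ) : TriL S.L2 S.R2 (S.pk j) (S.c5 j) (a5 j) := by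
  unfold c5
  cases hj : S.ty j with
  | g =>
    refine TriL.node _ _ (Y j) [X j] [] (by simp [L2]) (by simp [R2]) ?_ (.nil _ _)
    exact TriL.single (by simp [L2, hj]) (by simp [R2, hj])
  | s =>
    refine TriL.node _ _ (Y j) [q2 j] [] (by simp [L2]) (by simp [R2]) ?_ (.nil _ _)
    exact TriL.single (by simp [L2, hj]) (by simp [R2, hj])
  | f => exact TriL.single (by simp [L2]) (by simp [R2])

lemma tri_L (j : ℕ) : TriL S.L2 S.R2 (a5 j)
    ([wr (2 * j + 1), wm (2 * j + 1), S.c4 j] ++ S.c3 j) (wl (2 * j + 1)) := by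
  have o : (2 * j + 1) % 2 ≠ 0 := by omega
  have o2 : (2 * j + 1) / 2 = j := by omega
  refine TriL.node _ _ (wr (2 * j + 1)) [] (wm (2 * j + 1) :: S.c4 j :: S.c3 j)
    (by simp [L2, o, o2]) (by simp [R2]) (.nil _ _) ?_
  refine TriL.node _ _ (wm (2 * j + 1)) [] (S.c4 j :: S.c3 j)
    (by simp [L2]) (by simp [R2]) (.nil _ _) ?_
  refine TriL.node _ _ (S.c4 j) [] (S.c3 j) ?_ ?_ (.nil _ _) ?_
  · unfold c4
    cases hj : S.ty j <;> simp [L2, hj]
  · unfold c4
    cases hj : S.ty j <;> simp [R2, hj]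
  · unfold c3 c4
    cases hj : S.ty j with
    | g => exact TriL.single (by simp [L2, c4, hj]) (by simp [R2, hj])
    | s => exact TriL.single (by simp [L2, c4, hj]) (by simp [R2, hj])
    | f =>
      refine TriL.node _ _ (X j) [p1 j] [] (by simp [L2, hj]) (by simp [R2, hj]) ?_ (.nil _ _)
      exact TriL.single (by simp [L2, c4, hj]) (by simp [R2, hj])

lemma tri_K (j : ℕ) : TriL S.L2 S.R2 (a3 j)
    [wr (2 * j), wm (2 * j), S.c2 j, r4 j] (wl (2 * j)) := by
  have o : (2 * j) % 2 = 0 := by omega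
  have o2 : (2 * j) / 2 = j := by omega
  refine TriL.node _ _ (wr (2 * j)) [] [wm (2 * j), S.c2 j, r4 j]
    (by simp [L2]) (by simp [R2]) (.nil _ _) ?_
  refine TriL.node _ _ (wm (2 * j)) [] [S.c2 j, r4 j] (by simp [L2]) (by simp [R2]) (.nil _ _) ?_
  refine TriL.node _ _ (S.c2 j) [] [r4 j] ?_ ?_ (.nil _ _) ?_
  · unfold c2
    cases hj : S.ty j <;> simp [L2, hj]
  · unfold c2
    cases hj : S.ty j <;> simp [R2, hj]
  · exact TriL.single (by simp [L2]) (by simp [R2])

/-- the part of `path2` after `a5 j` -/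
lemma tri_rest (h : S.WF) (j : ℕ) (hj : j < S.N) : TriL S.L2 S.R2 (a5 (j + 1))
    (((([wr (2 * (j + 1) + 1), wm (2 * (j + 1) + 1), S.c4 (j + 1)] ++ S.c3 (j + 1)) ++
      wl (2 * (j + 1) + 1) :: []) ++ a3 (j + 1) ::
      ([wr (2 * (j + 1)), wm (2 * (j + 1)), S.c2 (j + 1), r4 (j + 1)] ++ wl (2 * (j + 1)) ::
        (S.blks2 j ++ tl2)))) O := by
  induction j with
  | zero =>
    refine TriL.node _ _ _ _ _ (by simp [L2]) (by simp [R2]) ?_ ?_
    · exact TriL.node _ _ _ _ _ (by simp [L2]) (by simp [R2]) (tri_L 1) (.nil _ _)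
    · refine TriL.node _ _ _ _ _ (by simp [L2]) (by simp [R2]) (tri_K 1) ?_
      rw [blks2, List.nil_append, tl2]
      refine TriL.node _ _ q0p [p0] [s0, r0, q0] (by simp [L2]) (by simp [R2]) ?_ ?_
      · exact TriL.single (by simp [L2]) (by simp [R2])
      · refine TriL.node _ _ r0 [s0] [q0] (by simp [L2]) (by simp [R2]) ?_ ?_
        · exact TriL.single (by simp [L2]) (by simp [R2])
        · exact TriL.single (by simp [L2]) (by simp [R2])
  | succ j ih =>
    have ih := ih (by omega)
    refine TriL.node _ _ _ _ _ (by simp [L2]) (by simp [R2]) ?_ ?_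
    · refine TriL.node _ _ _ _ _ ?_ ?_ (tri_L (j + 1 + 1)) (.nil _ _)
      · have o : (2 * (j + 1 + 1) + 1) % 2 ≠ 0 := by omega
        have o2 : (2 * (j + 1 + 1) + 1) / 2 = j + 1 + 1 := by omega
        simp [L2, o, o2]
      · have o : (2 * (j + 1 + 1) + 1) % 2 ≠ 0 := by omega
        have o2 : (2 * (j + 1 + 1) + 1) / 2 = j + 1 + 1 := by omega
        simp [R2, o, o2]
    · have e : [wr (2 * (j + 1 + 1)), wm (2 * (j + 1 + 1)), S.c2 (j + 1 + 1), r4 (j + 1 + 1)] ++
          wl (2 * (j + 1 + 1)) :: (S.blks2 (j + 1) ++ tl2) =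
          ([wr (2 * (j + 1 + 1)), wm (2 * (j + 1 + 1)), S.c2 (j + 1 + 1), r4 (j + 1 + 1)] ++
          wl (2 * (j + 1 + 1)) :: S.c5 (j + 1)) ++ a5 (j + 1) ::
          (((([wr (2 * (j + 1) + 1), wm (2 * (j + 1) + 1), S.c4 (j + 1)] ++ S.c3 (j + 1)) ++
            wl (2 * (j + 1) + 1) :: []) ++ a3 (j + 1) ::
          ([wr (2 * (j + 1)), wm (2 * (j + 1)), S.c2 (j + 1), r4 (j + 1)] ++ wl (2 * (j + 1)) ::
          (S.blks2 j ++ tl2)))) := by
        rw [blks2, blk2]
        simp
      rw [e]
      refine TriL.node _ _ _ _ _ ?_ (by simp [R2]) ?_ ih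
      · rw [L2, pa, if_pos hj]
      · refine TriL.node _ _ _ _ _ (by simp [L2]) (by simp [R2]) (tri_K _) ?_
        have := tri_c5 (S := S) (j + 1)
        rwa [pk, if_pos hj] at this

theorem C3b (S : Slp) (h : S.WF) : TriL S.L2 S.R2 H S.path2 O := by
  obtain ⟨k, hk⟩ : ∃ k, S.N = k + 1 := ⟨S.N - 1, by have := h.one_le; omega⟩
  have e : S.path2 = [] ++ anc :: (([B2, A2, M, A1] ++ B1 :: S.c5 S.N) ++ a5 S.N ::
      (((([wr (2 * (k + 1) + 1), wm (2 * (k + 1) + 1), S.c4 (k + 1)] ++ S.c3 (k + 1)) ++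
      wl (2 * (k + 1) + 1) :: []) ++ a3 (k + 1) ::
      ([wr (2 * (k + 1)), wm (2 * (k + 1)), S.c2 (k + 1), r4 (k + 1)] ++ wl (2 * (k + 1)) ::
        (S.blks2 k ++ tl2))))) := by
    rw [path2, hk, blks2, blk2, tl2]
    simp
  rw [e]
  refine TriL.node _ _ _ _ _ (by simp [L2]) (by simp [R2]) (.nil _ _) ?_
  refine TriL.node _ _ _ _ _ (by simp [L2, pa]) (by simp [R2]) ?_ ?_
  · refine TriL.node _ _ _ _ _ (by simp [L2]) (by simp [R2]) ?_ ?_
    · refine TriL.node _ _ B2 [] [A2, M, A1] (by simp [L2]) (by simp [R2]) (.nil _ _) ?_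
      refine TriL.node _ _ A2 [] [M, A1] (by simp [L2]) (by simp [R2]) (.nil _ _) ?_
      refine TriL.node _ _ M [] [A1] (by simp [L2]) (by simp [R2]) (.nil _ _) ?_
      exact TriL.single (by simp [L2]) (by simp [R2])
    · have := tri_c5 (S := S) S.N
      rwa [pk, if_neg (by omega)] at this
  · have := tri_rest h k (by omega)
    rw [hk]
    exact this

end Slp

end Pool.Agent.helper56.SGE
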